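import Pool.Agent.U79.GY.Stm
import Pool.Agent.Y710.CQ.BIL

/-!
# GY-BIL: bilinear sums of quadratic symbols of arbitrary odd primes

The template `Pool/Agent/Y710/CQ/BIL.lean` has the moduli on the left. If the moduli are on the right, the
sign of the reciprocity law is a combination of four products of a function of `p` and one of `q`.
-/

set_option autoImplicit false
set_option linter.all false

open Finset

namespace Pool.Agent.U864.GY

open Pool.Agent.Y703.CQ (sg nr)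
open Pool.Agent.Y710.CQ (xi bil sg_xi)

/-- the character modulo `4` -/
noncomputable def ch (n : ℕ) : ℂ := if n % 4 = 3 then -1 else 1

theorem ch_norm (n : ℕ) : ‖ch n‖ ≤ 1 := by
  unfold ch
  split_ifs <;> simp

theorem recip {p q : ℕ} (hp : p.Prime) (hq : q.Prime) (hp2 : p ≠ 2) (hq2 : q ≠ 2) :
    xi p q = (1 + ch p + ch q - ch p * ch q) / 2 * xi q p := by
  have ho := hp.odd_of_ne_two hp2
  have hq' := hq.odd_of_ne_two hq2
  have h1 : p % 4 = 1 ∨ p % 4 = 3 := by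
    have := Nat.odd_iff.1 ho
    omega
  have h2 : q % 4 = 1 ∨ q % 4 = 3 := by
    have := Nat.odd_iff.1 hq'
    omega
  rcases h1 with h1 | h1
  · have e1 : ch p = 1 := by unfold ch; rw [if_neg (by omega)]
    rw [e1]
    unfold xi
    rw [jacobiSym.quadratic_reciprocity_one_mod_four (a := p) (b := q) h1 hq']
    ring
  · have e1 : ch p = -1 := by unfold ch; rw [if_pos h1]
    rcases h2 with h2 | h2
    · have e2 : ch q = 1 := by unfold ch; rw [if_neg (by omega)]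
      rw [e1, e2]
      unfold xi
      rw [jacobiSym.quadratic_reciprocity_one_mod_four (a := q) (b := p) h2 ho]
      ring
    · have e2 : ch q = -1 := by unfold ch; rw [if_pos h2]
      rw [e1, e2]
      unfold xi
      rw [jacobiSym.quadratic_reciprocity_three_mod_four (a := p) (b := q) h1 h2]
      push_cast
      ring

theorem t_BIL : Pool.Agent.U79.GY.S_BIL := by
  refine ⟨4 ^ 12 * (3 * 6 ^ 6), by norm_num, ?_⟩
  intro P Q A B z c d hP hQ hdis hz hzA hzB hc hd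
  have hne : ∀ p ∈ P, ∀ q ∈ Q, p ≠ q := fun p hp q hq he =>
    (Finset.disjoint_left.1 hdis) hp (he ▸ hq)
  have hzr : (1 : ℝ) ≤ z := by exact_mod_cast hz
  rcases le_total B A with hBA | hAB
  · have e1 : ∑ p ∈ P, ∑ q ∈ Q, c p * d q * sg (nr p q) =
        (∑ q ∈ Q, ∑ p ∈ P, d q * c p * xi q p + ∑ q ∈ Q, ∑ p ∈ P, d q * (c p * ch p) * xi q p +
        ∑ q ∈ Q, ∑ p ∈ P, (d q * ch q) * c p * xi q p -
        ∑ q ∈ Q, ∑ p ∈ P, (d q * ch q) * (c p * ch p) * xi q p) / 2 := by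
      rw [sum_comm, ← sum_add_distrib, ← sum_add_distrib, ← sum_sub_distrib, sum_div]
      refine sum_congr rfl fun q hq => ?_
      rw [← sum_add_distrib, ← sum_add_distrib, ← sum_sub_distrib, sum_div]
      refine sum_congr rfl fun p hp => ?_
      obtain ⟨p1, p2, -⟩ := hP p hp
      obtain ⟨q1, q2, -⟩ := hQ q hq
      rw [sg_xi p1 q1 (hne p hp q hq), recip p1 q1 p2 q2]
      ring
    have hdc : ∀ q, ‖d q * ch q‖ ≤ 1 := fun q => by
      rw [norm_mul]
      exact mul_le_one₀ (hd q) (norm_nonneg _) (ch_norm q)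
    have hcc : ∀ q, ‖c q * ch q‖ ≤ 1 := fun q => by
      rw [norm_mul]
      exact mul_le_one₀ (hc q) (norm_nonneg _) (ch_norm q)
    have b1 := bil (hz.trans hzB) hBA hQ hP d c hd hc
    have b2 := bil (hz.trans hzB) hBA hQ hP d (fun p => c p * ch p) hd hcc
    have b3 := bil (hz.trans hzB) hBA hQ hP (fun q => d q * ch q) c hdc hc
    have b4 := bil (hz.trans hzB) hBA hQ hP (fun q => d q * ch q) (fun p => c p * ch p) hdc hcc
    rw [e1]
    set K : ℝ := 3 * 6 ^ 6 * ((B : ℝ) ^ 11 * (A : ℝ) ^ 12) with hK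
    set S1 : ℂ := ∑ q ∈ Q, ∑ p ∈ P, d q * c p * xi q p with hS1
    set S2 : ℂ := ∑ q ∈ Q, ∑ p ∈ P, d q * (c p * ch p) * xi q p with hS2
    set S3 : ℂ := ∑ q ∈ Q, ∑ p ∈ P, (d q * ch q) * c p * xi q p with hS3
    set S4 : ℂ := ∑ q ∈ Q, ∑ p ∈ P, (d q * ch q) * (c p * ch p) * xi q p with hS4
    have hM : ∃ t : ℝ, 0 ≤ t ∧ t ^ 12 ≤ K ∧ ‖S1‖ ≤ t ∧ ‖S2‖ ≤ t ∧ ‖S3‖ ≤ t ∧ ‖S4‖ ≤ t := by
      refine ⟨max (max ‖S1‖ ‖S2‖) (max ‖S3‖ ‖S4‖), ?_, ?_, ?_, ?_, ?_, ?_⟩
      · exact (norm_nonneg S1).trans ((le_max_left _ _).trans (le_max_left _ _))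
      · rcases max_choice (max ‖S1‖ ‖S2‖) (max ‖S3‖ ‖S4‖) with h | h <;> rw [h]
        · rcases max_choice ‖S1‖ ‖S2‖ with h | h <;> rw [h]
          · exact b1
          · exact b2
        · rcases max_choice ‖S3‖ ‖S4‖ with h | h <;> rw [h]
          · exact b3
          · exact b4
      · exact (le_max_left _ _).trans (le_max_left _ _)
      · exact (le_max_right _ _).trans (le_max_left _ _)
      · exact (le_max_left _ _).trans (le_max_right _ _)
      · exact (le_max_right _ _).trans (le_max_right _ _)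
    obtain ⟨t, ht0, htK, t1, t2, t3, t4⟩ := hM
    have hn : ‖(S1 + S2 + S3 - S4) / 2‖ ≤ 4 * t := by
      have k1 : ‖S1 + S2 + S3 - S4‖ ≤ ‖S1‖ + ‖S2‖ + ‖S3‖ + ‖S4‖ :=
        (norm_sub_le _ _).trans (add_le_add ((norm_add_le _ _).trans
          (add_le_add (norm_add_le _ _) le_rfl)) le_rfl)
      rw [norm_div, Complex.norm_ofNat]
      linarith [norm_nonneg (S1 + S2 + S3 - S4)]
    have hn2 : ‖(S1 + S2 + S3 - S4) / 2‖ ^ 12 ≤ 4 ^ 12 * K := by
      refine (pow_le_pow_left₀ (norm_nonneg _) hn 12).trans ?_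
      rw [mul_pow]
      exact mul_le_mul_of_nonneg_left htK (by positivity)
    have h2 : (z : ℝ) ≤ B := by exact_mod_cast hzB
    calc ‖(S1 + S2 + S3 - S4) / 2‖ ^ 12 * z ≤ (4 ^ 12 * K) * B := by
          apply mul_le_mul hn2 h2 (by positivity) (by positivity)
      _ = 4 ^ 12 * (3 * 6 ^ 6) * ((A : ℝ) * B) ^ 12 := by rw [hK]; ring
  · have e1 : ∑ p ∈ P, ∑ q ∈ Q, c p * d q * sg (nr p q) =
        ∑ p ∈ P, ∑ q ∈ Q, c p * d q * xi p q := by
      refine sum_congr rfl fun p hp => sum_congr rfl fun q hq => ?_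
      rw [sg_xi (hP p hp).1 (hQ q hq).1 (hne p hp q hq)]
    rw [e1]
    have h1 := bil (hz.trans hzA) hAB hP hQ c d hc hd
    have h2 : (z : ℝ) ≤ A := by exact_mod_cast hzA
    calc ‖∑ p ∈ P, ∑ q ∈ Q, c p * d q * xi p q‖ ^ 12 * z ≤
        (3 * 6 ^ 6 * ((A : ℝ) ^ 11 * (B : ℝ) ^ 12)) * A := by
          apply mul_le_mul h1 h2 (by positivity) (by positivity)
      _ = 1 * (3 * 6 ^ 6) * ((A : ℝ) * B) ^ 12 := by ring
      _ ≤ 4 ^ 12 * (3 * 6 ^ 6) * ((A : ℝ) * B) ^ 12 := by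
          gcongr
          norm_num

end Pool.Agent.U864.GY
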